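import Mathlib
import Pool.Agent.H617.WH.X
import Pool.Graph.R_seed8.H373R2.T7.SupLiou

set_option autoImplicit false

/-! Square-free numbers along shifted primes. -/

namespace Pool.Agent.H617.WH
open Finset
open Pool.Agent.H373R2.T7 (ev_L' ev_log' exI muC)

/-- the absolute value of the Moebius function -/
noncomputable def am (k : ℕ) : ℝ := |((ArithmeticFunction.moebius k : ℤ) : ℝ)|

lemma am_nonneg (k : ℕ) : 0 ≤ am k := abs_nonneg _

lemma am_sq {k : ℕ} (h : Squarefree k) : am k = 1 := by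
  unfold am
  rw [← Int.cast_abs, ArithmeticFunction.abs_moebius_eq_one_of_squarefree h]
  norm_num

lemma am_nsq {k : ℕ} (h : ¬ Squarefree k) : am k = 0 := by
  unfold am
  rw [ArithmeticFunction.moebius_eq_zero_of_not_squarefree h]
  norm_num

/-- the primes up to `D` -/
def pr (D : ℕ) : Finset ℕ := (range (D + 1)).filter Nat.Prime

lemma mem_pr {D r : ℕ} : r ∈ pr D ↔ r.Prime ∧ r ≤ D := by
  unfold pr
  rw [mem_filter, mem_range]
  constructor
  · rintro ⟨h1, h2⟩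
    exact ⟨h2, by omega⟩
  · rintro ⟨h1, h2⟩
    exact ⟨by omega, h1⟩

/-- the modulus -/
def qd (D : ℕ) : ℕ := ∏ r ∈ pr D, r ^ 2

lemma qd_pos (D : ℕ) : 1 ≤ qd D := by
  unfold qd
  apply Nat.one_le_iff_ne_zero.2
  rw [prod_ne_zero_iff]
  intro r hr
  exact pow_ne_zero _ (mem_pr.1 hr).1.ne_zero

/-- the classes that are not divisible by small squares -/
def cd (D : ℕ) : Finset ℕ := (range (qd D)).filter (fun c => ∀ r ∈ pr D, ¬ r ^ 2 ∣ c)

lemma cd_lt (D : ℕ) : ∀ c ∈ cd D, c < qd D := by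
  intro c hc
  unfold cd at hc
  rw [mem_filter, mem_range] at hc
  exact hc.1

lemma mem_cd (D k : ℕ) : k % qd D ∈ cd D ↔ ∀ r ∈ pr D, ¬ r ^ 2 ∣ k := by
  unfold cd
  rw [mem_filter, mem_range]
  have h0 : k % qd D < qd D := Nat.mod_lt _ (qd_pos D)
  have h1 : ∀ r ∈ pr D, r ^ 2 ∣ k % qd D ↔ r ^ 2 ∣ k := by
    intro r hr
    have h2 : r ^ 2 ∣ qd D := dvd_prod_of_mem _ hr
    exact Nat.dvd_mod_iff h2
  constructor
  · rintro ⟨_, h2⟩ r hr h3
    exact h2 r hr ((h1 r hr).2 h3)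
  · intro h2
    exact ⟨h0, fun r hr h3 => h2 r hr ((h1 r hr).1 h3)⟩

lemma mu_Ws (D k : ℕ) (hk : 1 ≤ k) : ‖exI muC (k : ℤ)‖ ≤ Ws (qd D) (cd D) k := by
  have h1 : ‖exI muC (k : ℤ)‖ = am k := by
    unfold exI muC am
    rw [if_pos (by exact_mod_cast hk), Int.toNat_natCast]
    rw [Complex.norm_intCast]
  rw [h1]
  by_cases hs : Squarefree k
  · rw [am_sq hs]
    unfold Ws
    rw [if_pos]
    rw [mem_cd]
    intro r hr h2
    have h3 := hs r (by rw [← pow_two]; exact h2)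
    exact (mem_pr.1 hr).1.one_lt.ne' (Nat.isUnit_iff.1 h3)
  · rw [am_nsq hs]
    exact Ws_nonneg _ _ _

lemma flp_mu : Flp (exI muC) := by
  intro p m hp hm hpm
  have h1 : 1 ≤ p * m := Nat.mul_pos hp.pos hm
  unfold exI muC
  rw [if_pos (by exact_mod_cast h1), if_pos (by exact_mod_cast hm), Int.toNat_natCast, Int.toNat_natCast]
  rw [ArithmeticFunction.isMultiplicative_moebius.map_mul_of_coprime ((hp.coprime_iff_not_dvd).2 hpm),
    ArithmeticFunction.moebius_apply_prime hp]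
  push_cast
  ring

lemma Ws_mu (D k : ℕ) (P : Finset ℕ) (hP : ∀ r : ℕ, r.Prime → D < r → r ^ 2 ∣ k → r ∈ P) :
    Ws (qd D) (cd D) k ≤ am k + ∑ r ∈ P, if r ^ 2 ∣ k then (1 : ℝ) else 0 := by
  have h0 : ∀ r ∈ P, (0 : ℝ) ≤ if r ^ 2 ∣ k then (1 : ℝ) else 0 := by
    intro r _
    split_ifs <;> norm_num
  by_cases hs : Squarefree k
  · rw [am_sq hs]
    have := sum_nonneg h0
    have h2 := Ws_le (qd D) (cd D) k
    linarith
  · rw [am_nsq hs, zero_add]
    unfold Ws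
    split_ifs with h1
    · rw [mem_cd] at h1
      rw [Nat.squarefree_iff_prime_squarefree] at hs
      push Not at hs
      obtain ⟨r, hr, hr2⟩ := hs
      rw [← pow_two] at hr2
      have h2 : D < r := by
        by_contra h3
        exact h1 r (mem_pr.2 ⟨hr, by omega⟩) hr2
      have h3 := hP r hr h2 hr2
      have h4 := single_le_sum h0 h3
      rw [if_pos hr2] at h4
      exact h4
    · exact sum_nonneg h0

lemma Ws_ge (D k : ℕ) : 1 - ∑ r ∈ pr D, (if r ^ 2 ∣ k then (1 : ℝ) else 0) ≤ Ws (qd D) (cd D) k := by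
  have h0 : ∀ r ∈ pr D, (0 : ℝ) ≤ if r ^ 2 ∣ k then (1 : ℝ) else 0 := by
    intro r _
    split_ifs <;> norm_num
  unfold Ws
  split_ifs with h1
  · have := sum_nonneg h0
    linarith
  · rw [mem_cd] at h1
    push Not at h1
    obtain ⟨r, hr, hr2⟩ := h1
    have h4 := single_le_sum h0 hr
    rw [if_pos hr2] at h4
    linarith

lemma cnt_mult (N t d : ℕ) (hd : 1 ≤ d) : (∑ n ∈ Ioc 0 N, if d ∣ n + t then (1 : ℝ) else 0) ≤ N / d + 1 := by
  classical
  rw [sum_boole]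
  have h1 : ((Ioc 0 N).filter (fun n => d ∣ n + t)).card ≤ N / d + 1 := by
    have h2 : ((Ioc 0 N).filter (fun n => d ∣ n + t)).card ≤ (Ioc (t / d) ((N + t) / d)).card := by
      apply card_le_card_of_injOn (fun n => (n + t) / d)
      · intro n hn
        rw [mem_coe, mem_filter, mem_Ioc] at hn
        rw [mem_coe, mem_Ioc]
        obtain ⟨⟨h3, h4⟩, h5⟩ := hn
        refine ⟨?_, Nat.div_le_div_right (by omega)⟩
        obtain ⟨q, hq⟩ := h5
        show t / d < (n + t) / d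
        rw [hq, Nat.mul_div_cancel_left _ (by omega)]
        rw [Nat.div_lt_iff_lt_mul (by omega)]
        rw [mul_comm]
        omega
      · intro n hn m hm hnm
        rw [mem_coe, mem_filter] at hn hm
        simp only at hnm
        obtain ⟨q, hq⟩ := hn.2
        obtain ⟨q', hq'⟩ := hm.2
        rw [hq, hq', Nat.mul_div_cancel_left _ (by omega), Nat.mul_div_cancel_left _ (by omega)] at hnm
        subst hnm
        omega
    refine h2.trans ?_
    rw [Nat.card_Ioc]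
    have h3 : (N + t) / d ≤ N / d + t / d + 1 := by
      rw [Nat.add_div (by omega)]
      split_ifs
      · exact le_rfl
      · exact Nat.le_succ _
    exact Nat.sub_le_iff_le_add.2 (by linarith)
  have h2 : (((Ioc 0 N).filter (fun n => d ∣ n + t)).card : ℝ) ≤ ((N / d + 1 : ℕ) : ℝ) := by exact_mod_cast h1
  refine h2.trans ?_
  push_cast
  have := @Nat.cast_div_le ℝ _ _ _ N d
  linarith

/-- the large squares -/
lemma sqs_big : ∃ N₀ : ℕ, ∀ N : ℕ, N₀ ≤ N → ∀ a t : ℕ, a ≤ N →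
    ∑ n ∈ Ioc 0 N, ArithmeticFunction.vonMangoldt (n + a) *
      ∑ r ∈ Ioc ⌊Real.log N ^ 2⌋₊ (2 * Nat.sqrt N), (if r ^ 2 ∣ n + t then (1 : ℝ) else 0) ≤ N * (5 / Real.log N) := by
  classical
  obtain ⟨N₁, h1⟩ := ev_log' 2 4
  obtain ⟨N₂, h2⟩ := ev_L' 4
  refine ⟨N₁ + N₂ + 3, fun N hN a t ha => ?_⟩
  have hb := h1 N (by omega)
  have hL := h2 N (by omega)
  obtain ⟨L, hLd⟩ : ∃ L, L = Real.log N := ⟨_, rfl⟩
  rw [← hLd] at hb hL ⊢
  have hL0 : 0 < L := by linarith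
  have hN3 : (3 : ℝ) ≤ N := by exact_mod_cast (by omega : 3 ≤ N)
  have hN0 : (0 : ℝ) < N := by linarith
  obtain ⟨M, hM⟩ : ∃ M, M = ⌊L ^ 2⌋₊ := ⟨_, rfl⟩
  rw [← hM]
  have hM1 : L ^ 2 / 2 ≤ M := by
    have g1 := Nat.lt_floor_add_one (L ^ 2)
    rw [← hM] at g1
    have g2 : 2 ≤ L ^ 2 := by nlinarith
    linarith
  have hM0 : (0 : ℝ) < M := by
    have : 0 < L ^ 2 / 2 := by positivity
    linarith
  obtain ⟨S, hS⟩ : ∃ S, S = 2 * Nat.sqrt N := ⟨_, rfl⟩
  rw [← hS]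
  have hS1 : (S : ℝ) ≤ 2 * √(N : ℝ) := by
    rw [hS]
    push_cast
    have := Real.nat_sqrt_le_real_sqrt (a := N)
    linarith
  have hlog : ∀ n ∈ Ioc 0 N, ArithmeticFunction.vonMangoldt (n + a) ≤ 2 * L := by
    intro n hn
    rw [mem_Ioc] at hn
    refine ArithmeticFunction.vonMangoldt_le_log.trans ?_
    have g1 : Real.log ((n + a : ℕ) : ℝ) ≤ Real.log ((N : ℝ) ^ 2) := by
      apply Real.log_le_log (by exact_mod_cast (by omega : 0 < n + a))
      have g2 : ((n + a : ℕ) : ℝ) ≤ 2 * N := by exact_mod_cast (by omega : n + a ≤ 2 * N)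
      nlinarith
    rw [Real.log_pow, ← hLd] at g1
    exact_mod_cast g1
  calc ∑ n ∈ Ioc 0 N, ArithmeticFunction.vonMangoldt (n + a) * ∑ r ∈ Ioc M S, (if r ^ 2 ∣ n + t then (1 : ℝ) else 0)
      ≤ ∑ n ∈ Ioc 0 N, (2 * L) * ∑ r ∈ Ioc M S, (if r ^ 2 ∣ n + t then (1 : ℝ) else 0) := by
        apply sum_le_sum
        intro n hn
        apply mul_le_mul_of_nonneg_right (hlog n hn)
        apply sum_nonneg
        intro r _
        split_ifs <;> norm_num
    _ = (2 * L) * ∑ r ∈ Ioc M S, ∑ n ∈ Ioc 0 N, (if r ^ 2 ∣ n + t then (1 : ℝ) else 0) := by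
        rw [← mul_sum, sum_comm]
    _ ≤ (2 * L) * ∑ r ∈ Ioc M S, (N * (1 / (r : ℝ) ^ 2) + 1) := by
        apply mul_le_mul_of_nonneg_left _ (by positivity)
        apply sum_le_sum
        intro r hr
        rw [mem_Ioc] at hr
        have g1 := cnt_mult N t (r ^ 2) (Nat.one_le_pow _ _ (by omega))
        refine g1.trans (le_of_eq ?_)
        push_cast
        ring
    _ ≤ (2 * L) * (N * (2 / L ^ 2) + 2 * √(N : ℝ)) := by
        apply mul_le_mul_of_nonneg_left _ (by positivity)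
        rw [sum_add_distrib, ← mul_sum, sum_const, Nat.card_Ioc, nsmul_eq_mul, mul_one]
        have g1 := Pool.Agent.E8helper16.SL.sum_inv_sq (s := Ioc M S) (w := M) (by exact_mod_cast hM0)
          (fun l hl => (mem_Ioc.1 hl).1)
        have g2 : 1 / (M : ℝ) ≤ 2 / L ^ 2 := by
          rw [div_le_div_iff₀ hM0 (by positivity)]
          linarith
        have g3 := mul_le_mul_of_nonneg_left (g1.trans g2) hN0.le
        have g4 : ((S - M : ℕ) : ℝ) ≤ S := by exact_mod_cast Nat.sub_le _ _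
        linarith
    _ = 4 * N / L + 4 * L * √(N : ℝ) := by
        field_simp
        ring
    _ ≤ N * (5 / L) := by
        have hsq : √(N : ℝ) * √(N : ℝ) = N := Real.mul_self_sqrt hN0.le
        have g1 : 4 * L * √(N : ℝ) ≤ N / L := by
          rw [le_div_iff₀ hL0]
          calc 4 * L * √(N : ℝ) * L = (4 * L ^ 2) * √(N : ℝ) := by ring
            _ ≤ √(N : ℝ) * √(N : ℝ) := mul_le_mul_of_nonneg_right hb (Real.sqrt_nonneg _)
            _ = N := hsq
        have g2 : (N : ℝ) * (5 / L) = 4 * N / L + N / L := by ring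
        linarith

/-- the weight and the square-free numbers -/
theorem gap (D : ℕ) (hD : 1 ≤ D) : ∃ N₀ : ℕ, ∀ N : ℕ, N₀ ≤ N → ∀ a t : ℕ, a ≤ N → t ≤ 2 * N →
    ∑ n ∈ Ioc 0 N, Ws (qd D) (cd D) (n + t) * ArithmeticFunction.vonMangoldt (n + a) ≤
      ∑ n ∈ Ioc 0 N, ArithmeticFunction.vonMangoldt (n + a) * am (n + t) + N * (2 / D + 6 / Real.log N) := by
  classical
  obtain ⟨N₁, h1⟩ := sqs
  obtain ⟨N₂, h2⟩ := sqs_big
  refine ⟨N₁ + N₂ + 4, fun N hN a t ha ht => ?_⟩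
  obtain ⟨P, hP⟩ : ∃ P, P = (pr ⌊Real.log N ^ 2⌋₊).filter (fun r => D < r) := ⟨_, rfl⟩
  have h1 := h1 N (by omega) P D a t (by omega) hD (by
    intro p hp
    rw [hP, mem_filter, mem_pr] at hp
    refine ⟨hp.1.1, hp.2, ?_⟩
    exact (Nat.cast_le.2 hp.1.2).trans (Nat.floor_le (sq_nonneg _)))
  have h2 := h2 N (by omega) a t ha
  have h3 : ∀ n ∈ Ioc 0 N, Ws (qd D) (cd D) (n + t) * ArithmeticFunction.vonMangoldt (n + a) ≤
      ArithmeticFunction.vonMangoldt (n + a) * am (n + t) +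
      ArithmeticFunction.vonMangoldt (n + a) * ∑ r ∈ P, (if r ^ 2 ∣ n + t then (1 : ℝ) else 0) +
      ArithmeticFunction.vonMangoldt (n + a) *
        ∑ r ∈ Ioc ⌊Real.log N ^ 2⌋₊ (2 * Nat.sqrt N), (if r ^ 2 ∣ n + t then (1 : ℝ) else 0) := by
    intro n hn
    rw [mem_Ioc] at hn
    have hdj : Disjoint P (Ioc ⌊Real.log N ^ 2⌋₊ (2 * Nat.sqrt N)) := by
      rw [disjoint_left]
      intro r hr hr'
      rw [hP, mem_filter, mem_pr] at hr
      rw [mem_Ioc] at hr'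
      omega
    have g1 := Ws_mu D (n + t) (P ∪ Ioc ⌊Real.log N ^ 2⌋₊ (2 * Nat.sqrt N)) (by
      intro r hr hDr hrd
      rw [mem_union]
      by_cases hr2 : r ≤ ⌊Real.log N ^ 2⌋₊
      · left
        rw [hP, mem_filter, mem_pr]
        exact ⟨⟨hr, hr2⟩, hDr⟩
      · right
        rw [mem_Ioc]
        refine ⟨by omega, ?_⟩
        have g2 := Nat.le_of_dvd (by omega) hrd
        by_contra g3
        have g4 : 2 * Nat.sqrt N + 1 ≤ r := by omega
        have g5 : (2 * Nat.sqrt N + 1) ^ 2 ≤ r ^ 2 := Nat.pow_le_pow_left g4 2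
        have g6 : N < (Nat.sqrt N + 1) ^ 2 := Nat.lt_succ_sqrt' N
        have g7 : 2 ≤ Nat.sqrt N := Nat.le_sqrt'.2 (by omega)
        obtain ⟨s, hs⟩ : ∃ s, s = Nat.sqrt N := ⟨_, rfl⟩
        rw [← hs] at g5 g6 g7
        have g8 : (2 * s + 1) ^ 2 ≤ 3 * N := by omega
        nlinarith)
    rw [sum_union hdj] at g1
    have g2 := mul_le_mul_of_nonneg_left g1 (ArithmeticFunction.vonMangoldt_nonneg (n := n + a))
    rw [mul_comm]
    linarith
  refine (sum_le_sum h3).trans ?_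
  rw [sum_add_distrib, sum_add_distrib]
  have e : (N : ℝ) * (2 / D + 6 / Real.log N) = N * (2 / D + 1 / Real.log N) + N * (5 / Real.log N) := by ring
  rw [e]
  linarith

lemma sAP_sq (a t N p : ℕ) (hp : 1 ≤ p) : sAP a 0 N (p ^ 2) ((p ^ 2 - 1) * t) =
    ∑ n ∈ Ioc 0 N, ArithmeticFunction.vonMangoldt (n + a) * (if p ^ 2 ∣ n + t then (1 : ℝ) else 0) := by
  unfold sAP
  rw [sum_filter]
  apply sum_congr rfl
  intro n _
  have hp1 : 1 ≤ p ^ 2 := Nat.one_le_pow _ _ hp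
  have e2 := modEq_neg n t (p ^ 2) hp1
  by_cases hd : p ^ 2 ∣ n + t
  · rw [if_pos hd, if_pos (e2.1 hd), mul_one]
  · rw [if_neg hd, if_neg (fun q => hd (e2.2 q)), mul_zero]

lemma XQ_sq (N p c : ℕ) (hp : p.Prime) : XQ N (p ^ 2) c ≤ N * (1 / ((p : ℝ) * (p - 1))) := by
  have hp2 : (2 : ℝ) ≤ p := by exact_mod_cast hp.two_le
  have h0 : (0 : ℝ) < (p : ℝ) * (p - 1) := by nlinarith
  unfold XQ
  split_ifs
  · rw [Nat.totient_prime_pow hp (by norm_num : 0 < 2)]
    rw [Nat.cast_mul, Nat.cast_sub hp.one_le]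
    push_cast
    rw [div_eq_mul_one_div]
    norm_num
  · positivity

lemma pr10 : pr 10 = {2, 3, 5, 7} := by decide

/-- many square-free numbers along shifted primes -/
theorem low : ∃ N₀ : ℕ, ∀ N : ℕ, N₀ ≤ N → ∀ a t : ℕ, a ≤ N → t ≤ 2 * N →
    (N : ℝ) / 24 ≤ ∑ n ∈ Ioc 0 N, ArithmeticFunction.vonMangoldt (n + a) * am (n + t) := by
  obtain ⟨N₁, h1⟩ := gap 10 (by norm_num)
  obtain ⟨N₂, h2⟩ := ap 1 1
  obtain ⟨N₃, h3⟩ := ev_L' 1000
  refine ⟨N₁ + N₂ + N₃ + 3, fun N hN a t ha ht => ?_⟩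
  have h1 := h1 N (by omega) a t ha ht
  have h2 := h2 N (by omega)
  have hL := h3 N (by omega)
  obtain ⟨L, hLd⟩ : ∃ L, L = Real.log N := ⟨_, rfl⟩
  rw [← hLd, pow_one] at h2
  rw [← hLd] at h1 hL
  have hL0 : 0 < L := by linarith
  have hN0 : (0 : ℝ) < N := by exact_mod_cast (by omega : 0 < N)
  have hNL : N / L ≤ N / 1000 := div_le_div_of_nonneg_left hN0.le (by norm_num) hL
  have h4 : ∀ p : ℕ, p.Prime → p ≤ 10 → ∑ n ∈ Ioc 0 N, ArithmeticFunction.vonMangoldt (n + a) *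
      (if p ^ 2 ∣ n + t then (1 : ℝ) else 0) ≤ N * (1 / ((p : ℝ) * (p - 1))) + N / L := by
    intro p hp hp10
    rw [← sAP_sq a t N p hp.one_le]
    have g1 := h2 a 0 N (Nat.zero_le _) (by omega) (p ^ 2) (Nat.one_le_pow _ _ hp.pos) (by
      have : ((p ^ 2 : ℕ) : ℝ) ≤ ((10 ^ 2 : ℕ) : ℝ) := by exact_mod_cast Nat.pow_le_pow_left hp10 2
      norm_num at this ⊢
      linarith) ((p ^ 2 - 1) * t)
    rw [Nat.sub_zero] at g1
    have g2 := XQ_sq N p ((p ^ 2 - 1) * t + a) hp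
    have g3 := (abs_le.1 g1).2
    linarith
  have h5 : (N : ℝ) - N / L ≤ ∑ n ∈ Ioc 0 N, ArithmeticFunction.vonMangoldt (n + a) := by
    have g1 := h2 a 0 N (Nat.zero_le _) (by omega) 1 le_rfl (by norm_num; linarith) 0
    rw [sAP_one, XQ_one, Nat.sub_zero] at g1
    have g3 := (abs_le.1 g1).1
    linarith
  have h6 : ∀ n ∈ Ioc 0 N, ArithmeticFunction.vonMangoldt (n + a) ≤
      Ws (qd 10) (cd 10) (n + t) * ArithmeticFunction.vonMangoldt (n + a) +
      (ArithmeticFunction.vonMangoldt (n + a) * (if 2 ^ 2 ∣ n + t then (1 : ℝ) else 0) +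
      ArithmeticFunction.vonMangoldt (n + a) * (if 3 ^ 2 ∣ n + t then (1 : ℝ) else 0) +
      ArithmeticFunction.vonMangoldt (n + a) * (if 5 ^ 2 ∣ n + t then (1 : ℝ) else 0) +
      ArithmeticFunction.vonMangoldt (n + a) * (if 7 ^ 2 ∣ n + t then (1 : ℝ) else 0)) := by
    intro n _
    have g1 := Ws_ge 10 (n + t)
    rw [pr10] at g1
    rw [sum_insert (by decide), sum_insert (by decide), sum_insert (by decide), sum_singleton] at g1
    have g2 := mul_le_mul_of_nonneg_left g1 (ArithmeticFunction.vonMangoldt_nonneg (n := n + a))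
    linarith
  have h7 := h5.trans (sum_le_sum h6)
  rw [sum_add_distrib, sum_add_distrib, sum_add_distrib, sum_add_distrib] at h7
  have k2 := h4 2 Nat.prime_two (by norm_num)
  have k3 := h4 3 Nat.prime_three (by norm_num)
  have k5 := h4 5 Nat.prime_five (by norm_num)
  have k7 := h4 7 (by norm_num) (by norm_num)
  norm_num at k2 k3 k5 k7 h7 h1 ⊢
  have e : (N : ℝ) * (1 / 5 + 6 / L) = N * (1 / 5) + 6 * (N / L) := by ring
  rw [e] at h1
  linarith

end Pool.Agent.H617.WH
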